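import Mathlib
import Pool.Agent.Lib.CMS.EFin

set_option autoImplicit false

namespace Pool.Agent.Results.MP_d9f52e_nt.ComplexCubic

open NumberField MPd9f52e CMS

/-- Stark's rank one conjecture (conditions 1, 2 and 3) for every extension `L / K` with
`K ⊆ L ⊆ K(ζ_m)`, where `K` is ANY complex cubic field, `m ≥ 3`, the ideal `f` of `K` has the same
prime divisors as `m` and `v` is a place of `L` above the complex place of `K`. -/
theorem result : ∀ (m : ℕ) (K L M : Type) [Field K] [NumberField K] [Field L] [NumberField L]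
    [Field M] [NumberField M] [Algebra K M] [Algebra K L] [Algebra L M] [IsScalarTower K L M]
    (ζ : M), CycG m K M ζ → ∀ f : Ideal (𝓞 K),
    (∀ P : Ideal (𝓞 K), P.IsPrime → (f ≤ P ↔ (m : 𝓞 K) ∈ P)) →
    ∀ v : InfinitePlace L, (v.comap (algebraMap K L)).IsComplex → Stark K L f v := by
  intro m K L M _ _ _ _ _ _ _ _ _ _ ζ h f hf v hv
  have : NeZero m := ⟨by have := h.three_le; omega⟩
  exact stark_cub (M := M) h hf v hv

end Pool.Agent.Results.MP_d9f52e_nt.ComplexCubic
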