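import Mathlib
import Pool.Agent.Lib.CMS.ERay
import Pool.Agent.Lib.MP_d9f52e_nt.ACl5

set_option autoImplicit false

namespace Pool.Agent.Results.MP_d9f52e_nt.ComplexCubicRay

open NumberField MPd9f52e CMS

/-- Question Q1, literally, for the narrow ray class field `K(f)` of a complex cubic field `K`, if
the class modulo `P(f)_+` of an ideal prime to `f` is determined by its norm modulo `m`, where `f`
and `m` have the same prime divisors; some subfield of `K(ζ_m)` is then the narrow ray class field.
This is the case if the ring of integers of `K` is a principal ideal domain (or `K = ℚ(∛5)`, where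
this is proved), `m ≥ 3` is squarefree without prime factor `≡ 1` modulo `3` and `f ^ 3 = (m)`,
that is, `f` is a product of totally ramified primes. -/
theorem result : ∀ (m : ℕ) (K M : Type) [Field K] [NumberField K] [Field M] [NumberField M]
    [Algebra K M] (ζ : M), CycG m K M ζ → ∀ f : Ideal (𝓞 K),
    (∀ P : Ideal (𝓞 K), P.IsPrime → (f ≤ P ↔ (m : 𝓞 K) ∈ P)) →
    (NormDet K f m ∨ ((IsPrincipalIdealRing (𝓞 K) ∨ ∃ θ : K, θ ^ 3 = 5) ∧ Squarefree m ∧
      (∀ p : ℕ, p.Prime → p ∣ m → p % 3 ≠ 1) ∧ f ^ 3 = Ideal.span {(m : 𝓞 K)})) →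
    (∃ L : IntermediateField K M, IsRayField K L f) ∧ Q1 K f := by
  intro m K M _ _ _ _ _ ζ h f hf hyp
  have H : NormDet K f m := by
    rcases hyp with H | ⟨hcl, hsq, h1, hf3⟩
    · exact H
    · refine er_ram h.finrank h.cpx h.three_le hsq h1 hf3 ?_
      rcases hcl with hcl | ⟨θ, hθ⟩
      · exact hcl
      · exact class_five h.finrank hθ
  exact ⟨er_exists h hf H, er_q1 h.finrank h.cpx h.three_le hf H⟩

end Pool.Agent.Results.MP_d9f52e_nt.ComplexCubicRay
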